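import Pool.Agent.T9h50.TW.Fin

set_option autoImplicit false
set_option exponentiation.threshold 3000

/-!
# Unbounded orbits near the Lagrangian (equilateral) relative equilibrium of three equal masses

For all masses near `1 : 1 : 1` and for EVERY solution of the planar three-body problem which stays
near (the rotations of) the equilateral relative equilibrium for all `t ≥ 0`, every neighbourhood of its
initial condition contains initial conditions with unbounded solutions. This holds in particular for all
relative periodic solutions near the relative equilibrium: the equilateral relative equilibria of the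
nearby masses, the homographic (elliptic Lagrangian) solutions with small eccentricity, and the others.
The constants are explicit: `10^(-500)` for the masses and for the distances.

Proof. The linearisation at the equilateral relative equilibrium has a pair of complex eigenvalues with
real part `sqrt (3/2)`, all the other ones have nonpositive real parts. Any solution which stays near
the relative equilibrium is changed by the solution of a nonlinear boundary value problem on a long time
interval `[0, T]` (contraction principle): the change is tiny at the time `0`, and at the time `T` the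
changed solution is within `1/10^69` of a prescribed point of the two-dimensional unstable manifold of
the explicit relative equilibrium, at the distance about `10^(-14)`. From there it is followed rigorously:
first by a polynomial of degree 14 in two variables for the unstable manifold, then by 448 Taylor steps of
degrees up to 40 in exact integer arithmetic which is verified by the kernel, in 15 phases with Gronwall
estimates for softened (globally Lipschitz) vector fields (the orbit passes several close encounters, so
that errors grow by a factor of about `10^30`); then an explicit escape criterion applies: the first body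
leaves the other two.
-/

open Complex

namespace Pool.Agent.Results.MP_6e7c44_mp.UnboundedNearEqualMassLagrange

/-- Phase points of three bodies in the plane `ℂ`: positions and velocities. -/
abbrev Ph := (Fin 3 → ℂ) × (Fin 3 → ℂ)

/-- Newtonian acceleration of body `a`: `∑_{b ≠ a} m_b (q_b - q_a) / |q_b - q_a|^3`. -/
noncomputable def acc (m : Fin 3 → ℝ) (q : Fin 3 → ℂ) (a : Fin 3) : ℂ :=
  ∑ b ∈ Finset.univ.erase a, ((m b / ‖q b - q a‖ ^ 3 : ℝ) : ℂ) * (q b - q a)

/-- `x = (q, v)` is a collision-free solution of Newton's equations on the time interval `J`. -/
def IsSol (m : Fin 3 → ℝ) (J : Set ℝ) (x : ℝ → Ph) : Prop :=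
  ∀ t ∈ J, (∀ a b, a ≠ b → (x t).1 a ≠ (x t).1 b) ∧
    HasDerivWithinAt x ((x t).2, acc m (x t).1) J t

/-- The solution with the initial condition `z` exists for all `t ≥ 0`, and one of its mutual distances
is unbounded. -/
def Unbounded (m : Fin 3 → ℝ) (z : Ph) : Prop :=
  ∃ x : ℝ → Ph, x 0 = z ∧ IsSol m (Set.Ici 0) x ∧
    ∃ a b, ∀ R : ℝ, ∃ t : ℝ, 0 ≤ t ∧ R < ‖(x t).1 a - (x t).1 b‖

/-- Rigid rotation with the angular velocity `w` of the configuration `p`: body `a` is at
`exp (i w t) p_a`. -/
noncomputable def rigid (w : ℝ) (p : Fin 3 → ℂ) (t : ℝ) : Ph :=
  (fun a => exp ((w * t : ℝ) * I) * p a, fun a => I * w * (exp ((w * t : ℝ) * I) * p a))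

/-- `z` is `ε`-close to a rotation of the phase point `y`: all relative positions and relative velocities
differ by at most `ε` from those of `u y`, for some `u` with `|u| = 1`. -/
def Near (ε : ℝ) (y z : Ph) : Prop := ∃ u : ℂ, ‖u‖ = 1 ∧ ∀ a b,
  ‖(z.1 a - z.1 b) - u * (y.1 a - y.1 b)‖ ≤ ε ∧ ‖(z.2 a - z.2 b) - u * (y.2 a - y.2 b)‖ ≤ ε

/-- Three equal masses, with the sum `3`. -/
noncomputable def mass : Fin 3 → ℝ := ![1, 1, 1]

/-- The equilateral triangle with the side `1` (with the centre of mass at `0`): the positions
`-√3/3 i`, `1/2 + √3/6 i`, `-1/2 + √3/6 i`. -/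
noncomputable def pos : Fin 3 → ℂ :=
  ![⟨0, -(Real.sqrt 3 / 3)⟩, ⟨1 / 2, Real.sqrt 3 / 6⟩, ⟨-(1 / 2), Real.sqrt 3 / 6⟩]

/-- The angular velocity `√3`. -/
noncomputable def om : ℝ := Real.sqrt 3

/-- The rigid rotation `rigid om pos` is a solution for the masses `mass`. For all masses `m` with
`|m_a - mass_a| ≤ 10^(-500)`: there is a rigidly rotating equilateral solution with the side `1` which is
`10^(-500)`-close to `rigid om pos`, and for every solution `x` on `[0, ∞)` which is at all times
`10^(-500)`-close to rotations of `rigid om pos`, every neighbourhood of the initial condition `x 0`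
contains initial conditions with unbounded solutions. -/
theorem result : IsSol mass Set.univ (rigid om pos) ∧
    ∀ m : Fin 3 → ℝ, (∀ a, |m a - mass a| ≤ 1 / 10 ^ 500) →
      (∃ (w : ℝ) (p : Fin 3 → ℂ), 0 < w ∧ (∀ a b, a ≠ b → ‖p a - p b‖ = 1) ∧
        IsSol m Set.univ (rigid w p) ∧ Near (1 / 10 ^ 500) (rigid om pos 0) (rigid w p 0)) ∧
      ∀ x : ℝ → Ph, IsSol m (Set.Ici 0) x →
        (∀ t, 0 ≤ t → Near (1 / 10 ^ 500) (rigid om pos 0) (x t)) →
        ∀ U ∈ nhds (x 0), ∃ z ∈ U, Unbounded m z :=
  ⟨Pool.Agent.T9h50.TW.lag_rigid, Pool.Agent.T9h50.TW.main⟩

end Pool.Agent.Results.MP_6e7c44_mp.UnboundedNearEqualMassLagrange
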