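import Pool.Agent.T9h50.TB.Fin

set_option autoImplicit false

/-!
# Unbounded orbits near Eulerian relative equilibria, for an open set of masses

For the masses `83 : 1044 : 3916` the three bodies can rotate rigidly on a line with the distances
`r_12 = 1`, `r_23 = 2`, `r_13 = 3`. We prove that for all masses near these and for EVERY solution which
stays near (the rotations of) this relative equilibrium for all `t ≥ 0`, every neighbourhood of its
initial condition contains initial conditions with unbounded solutions. This holds in particular for all
relative periodic solutions near the relative equilibrium: the Eulerian relative equilibria of the nearby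
masses (their existence is part of the statement), the homographic solutions with small eccentricity, the
orbits of the Lyapunov families, and so on.

Proof. The linearisation at the relative equilibrium has the simple eigenvalue `1`, all the other ones have
nonpositive real parts. By a cone argument a small perturbation in the unstable direction of any solution
which stays near the relative equilibrium leaves its neighbourhood along the unstable manifold of the
explicit relative equilibrium. A solution on this unstable manifold is followed rigorously: first by a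
Taylor polynomial of degree 22 of the manifold, then by 84 Taylor steps of length `1/4` in exact integer
arithmetic which is verified by the kernel, with Gronwall estimates for a softened (globally Lipschitz)
vector field; then an explicit escape criterion for the light body applies.
-/

open Complex

namespace Pool.Agent.Results.MP_6e7c44_mp.UnboundedNearEulerEquilibria

/-- Phase points of three bodies in the plane `ℂ`: positions and velocities. -/
abbrev Ph := (Fin 3 → ℂ) × (Fin 3 → ℂ)

/-- Newtonian acceleration of body `a`: `∑_{b ≠ a} m_b (q_b - q_a) / |q_b - q_a|^3`. -/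
noncomputable def acc (m : Fin 3 → ℝ) (q : Fin 3 → ℂ) (a : Fin 3) : ℂ :=
  ∑ b ∈ Finset.univ.erase a, ((m b / ‖q b - q a‖ ^ 3 : ℝ) : ℂ) * (q b - q a)

/-- `x = (q, v)` is a collision-free solution of Newton's equations on the time interval `J`. -/
def IsSol (m : Fin 3 → ℝ) (J : Set ℝ) (x : ℝ → Ph) : Prop :=
  ∀ t ∈ J, (∀ a b, a ≠ b → (x t).1 a ≠ (x t).1 b) ∧
    HasDerivWithinAt x ((x t).2, acc m (x t).1) J t

/-- The solution with the initial condition `z` exists for all `t ≥ 0`, and one of its mutual distances
is unbounded. -/
def Unbounded (m : Fin 3 → ℝ) (z : Ph) : Prop :=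
  ∃ x : ℝ → Ph, x 0 = z ∧ IsSol m (Set.Ici 0) x ∧
    ∃ a b, ∀ R : ℝ, ∃ t : ℝ, 0 ≤ t ∧ R < ‖(x t).1 a - (x t).1 b‖

/-- Rigid rotation with the angular velocity `w` of three bodies on a line: body `a` is at
`exp (i w t) p_a`. -/
noncomputable def rigid (w : ℝ) (p : Fin 3 → ℝ) (t : ℝ) : Ph :=
  (fun a => exp ((w * t : ℝ) * I) * p a, fun a => I * w * (exp ((w * t : ℝ) * I) * p a))

/-- `z` is `ε`-close to a rotation of the phase point `y`: all relative positions and relative velocities
differ by at most `ε` from those of `u y`, for some `u` with `|u| = 1`. -/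
def Near (ε : ℝ) (y z : Ph) : Prop := ∃ u : ℂ, ‖u‖ = 1 ∧ ∀ a b,
  ‖(z.1 a - z.1 b) - u * (y.1 a - y.1 b)‖ ≤ ε ∧ ‖(z.2 a - z.2 b) - u * (y.2 a - y.2 b)‖ ≤ ε

/-- The masses, in the ratio `83 : 1044 : 3916`. -/
noncomputable def mass : Fin 3 → ℝ := ![747 / 14432, 9396 / 14432, 35244 / 14432]

/-- The collinear configuration: the positions `104/41`, `63/41`, `-19/41`. -/
noncomputable def pos : Fin 3 → ℝ := ![104 / 41, 63 / 41, -(19 / 41)]

/-- The angular velocity `sqrt (4/11)`. -/
noncomputable def om : ℝ := Real.sqrt (4 / 11)

/-- The rigid rotation `rigid om pos` is a solution for the masses `mass`. There are `ε, δ > 0` such that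
for all masses `m` with `|m_a - mass_a| ≤ δ`: there is a rigidly rotating solution which is `ε`-close to
`rigid om pos`, and for every solution `x` on `[0, ∞)` which is at all times `ε`-close to rotations of
`rigid om pos`, every neighbourhood of the initial condition `x 0` contains initial conditions with
unbounded solutions. -/
theorem result : IsSol mass Set.univ (rigid om pos) ∧
    ∃ ε : ℝ, 0 < ε ∧ ∃ δ : ℝ, 0 < δ ∧ ∀ m : Fin 3 → ℝ, (∀ a, |m a - mass a| ≤ δ) →
      (∃ (w : ℝ) (p : Fin 3 → ℝ), 0 < w ∧ IsSol m Set.univ (rigid w p) ∧
        Near ε (rigid om pos 0) (rigid w p 0)) ∧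
      ∀ x : ℝ → Ph, IsSol m (Set.Ici 0) x → (∀ t, 0 ≤ t → Near ε (rigid om pos 0) (x t)) →
        ∀ U ∈ nhds (x 0), ∃ z ∈ U, Unbounded m z :=
  ⟨Pool.Agent.T9h50.TB.eul_rigid, Pool.Agent.T9h50.TB.main⟩

end Pool.Agent.Results.MP_6e7c44_mp.UnboundedNearEulerEquilibria
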