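import Pool.Agent.T9h50.TR.Fin

set_option autoImplicit false
set_option exponentiation.threshold 3000

/-!
# Unbounded orbits near the Lagrangian (equilateral) equilibrium of two equal masses and a light body

For all masses near `0 : 1 : 1` (two nearly equal primaries and a third body with a small positive mass;
the mass zero, i.e. the restricted three-body problem, is included) and for EVERY solution of the planar
three-body problem which stays near (the rotations of) the equilateral relative equilibrium for all
`t ≥ 0`, every neighbourhood of its initial condition contains initial conditions with unbounded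
solutions. This holds in particular for all relative periodic solutions near the relative equilibrium:
the equilateral relative equilibria of the nearby masses, the homographic (elliptic Lagrangian) solutions
with small eccentricity, and the others. The constants are explicit: `10^(-500)` for the masses and for
the distances; they are uniform as the mass of the light body tends to zero.

Proof. The linearisation at the equilateral relative equilibrium has a pair of complex eigenvalues with
the real part `sqrt (9 sqrt 3 / 8 - 3 / 4)`, all the other ones have nonpositive real parts. Any solution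
which stays near the relative equilibrium is changed by the solution of a nonlinear boundary value
problem on a long time interval `[0, T]` (contraction principle): the change is tiny at the time `0`, and
at the time `T` the changed solution is within `6/10^58` of a prescribed point of the two-dimensional
unstable manifold of the explicit relative equilibrium. From there it is followed rigorously: first by a
polynomial of degree 11 in two variables for the unstable manifold, then by 120 Taylor steps of degree 26
in exact integer arithmetic which is verified by the kernel, in 3 phases with Gronwall estimates for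
softened (globally Lipschitz) vector fields; then an explicit escape criterion applies: the light body
leaves the two primaries.
-/

open Complex

namespace Pool.Agent.Results.MP_6e7c44_mp.UnboundedNearRestrictedLagrange

/-- Phase points of three bodies in the plane `ℂ`: positions and velocities. -/
abbrev Ph := (Fin 3 → ℂ) × (Fin 3 → ℂ)

/-- Newtonian acceleration of body `a`: `∑_{b ≠ a} m_b (q_b - q_a) / |q_b - q_a|^3`. -/
noncomputable def acc (m : Fin 3 → ℝ) (q : Fin 3 → ℂ) (a : Fin 3) : ℂ :=
  ∑ b ∈ Finset.univ.erase a, ((m b / ‖q b - q a‖ ^ 3 : ℝ) : ℂ) * (q b - q a)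

/-- `x = (q, v)` is a collision-free solution of Newton's equations on the time interval `J`. -/
def IsSol (m : Fin 3 → ℝ) (J : Set ℝ) (x : ℝ → Ph) : Prop :=
  ∀ t ∈ J, (∀ a b, a ≠ b → (x t).1 a ≠ (x t).1 b) ∧
    HasDerivWithinAt x ((x t).2, acc m (x t).1) J t

/-- The solution with the initial condition `z` exists for all `t ≥ 0`, and one of its mutual distances
is unbounded. -/
def Unbounded (m : Fin 3 → ℝ) (z : Ph) : Prop :=
  ∃ x : ℝ → Ph, x 0 = z ∧ IsSol m (Set.Ici 0) x ∧
    ∃ a b, ∀ R : ℝ, ∃ t : ℝ, 0 ≤ t ∧ R < ‖(x t).1 a - (x t).1 b‖

/-- Rigid rotation with the angular velocity `w` of the configuration `p`: body `a` is at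
`exp (i w t) p_a`. -/
noncomputable def rigid (w : ℝ) (p : Fin 3 → ℂ) (t : ℝ) : Ph :=
  (fun a => exp ((w * t : ℝ) * I) * p a, fun a => I * w * (exp ((w * t : ℝ) * I) * p a))

/-- `z` is `ε`-close to a rotation of the phase point `y`: all relative positions and relative velocities
differ by at most `ε` from those of `u y`, for some `u` with `|u| = 1`. -/
def Near (ε : ℝ) (y z : Ph) : Prop := ∃ u : ℂ, ‖u‖ = 1 ∧ ∀ a b,
  ‖(z.1 a - z.1 b) - u * (y.1 a - y.1 b)‖ ≤ ε ∧ ‖(z.2 a - z.2 b) - u * (y.2 a - y.2 b)‖ ≤ ε

/-- The masses of the light body and of the two primaries, with the sum `3`. -/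
noncomputable def mass : Fin 3 → ℝ := ![0, 3 / 2, 3 / 2]

/-- The equilateral triangle with the side `1` (with the centre of mass at `0`): the positions
`-√3/2 i`, `1/2`, `-1/2`. -/
noncomputable def pos : Fin 3 → ℂ := ![⟨0, -(Real.sqrt 3 / 2)⟩, ⟨1 / 2, 0⟩, ⟨-(1 / 2), 0⟩]

/-- The angular velocity `√3`. -/
noncomputable def om : ℝ := Real.sqrt 3

/-- The rigid rotation `rigid om pos` is a solution for the masses `mass`. For all masses `m` with
`|m_a - mass_a| ≤ 10^(-500)` and `0 ≤ m_0`: there is a rigidly rotating equilateral solution with the
side `1` which is `10^(-500)`-close to `rigid om pos`, and for every solution `x` on `[0, ∞)` which is at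
all times `10^(-500)`-close to rotations of `rigid om pos`, every neighbourhood of the initial condition
`x 0` contains initial conditions with unbounded solutions. -/
theorem result : IsSol mass Set.univ (rigid om pos) ∧
    ∀ m : Fin 3 → ℝ, (∀ a, |m a - mass a| ≤ 1 / 10 ^ 500) → 0 ≤ m 0 →
      (∃ (w : ℝ) (p : Fin 3 → ℂ), 0 < w ∧ (∀ a b, a ≠ b → ‖p a - p b‖ = 1) ∧
        IsSol m Set.univ (rigid w p) ∧ Near (1 / 10 ^ 500) (rigid om pos 0) (rigid w p 0)) ∧
      ∀ x : ℝ → Ph, IsSol m (Set.Ici 0) x →
        (∀ t, 0 ≤ t → Near (1 / 10 ^ 500) (rigid om pos 0) (x t)) →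
        ∀ U ∈ nhds (x 0), ∃ z ∈ U, Unbounded m z :=
  ⟨Pool.Agent.T9h50.TR.lag_rigid, fun m h h0 => Pool.Agent.T9h50.TR.main m ⟨h, h0⟩⟩

end Pool.Agent.Results.MP_6e7c44_mp.UnboundedNearRestrictedLagrange
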